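import Pool.Agent.U400.PD.Main
import Pool.Agent.N208.OU.Main

set_option autoImplicit false
set_option linter.unusedSectionVars false

/-!
# The derived part of the complex structure is in all full subalgebras: consequences

A common form of the conclusions of `N208.OU.N_memF` and `U400.PD.N_memF`.
-/

open Module Function TensorProduct Matrix

noncomputable section

namespace Pool.Agent.U400.PM

open Pool.Agent.Y102 Pool.Agent.W516.DR Pool.Agent.H204R3.GP Pool.Agent.W516.KC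
  Pool.Agent.H204R3.SP Pool.Agent.TH119.MX Pool.Agent.R917 Pool.Agent.N208.AM Pool.Agent.N113.BT
  Pool.Agent.U400.PD

section Gen

variable {g k : ℕ} {A : AbVar g} {s n : ℕ} {r : Fin s → ℕ} {B : Fin n → Ten A r} {w : Fin s → ℤ}
  {P : Matrix (Fin n) (Fin n) ℂ} {N : Matrix (Fin n) (Fin n) ℝ} {Wt : Matrix (Fin n) (Fin n) ℚ}
  {H : Set (Matrix (Fin n) (Fin n) ℂ)}
  {e : Fin k → Module.End ℂ (ℂ ⊗[ℚ] A.H1)}

/-- The derived part of the complex structure is in all full subalgebras. -/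
def DJ (B : Fin n → Ten A r) (N : Matrix (Fin n) (Fin n) ℝ) : Prop :=
  ∀ 𝔮 : Submodule ℚ (Module.End ℚ A.H1), A.Full 𝔮 → ∀ Nc Nd : Matrix (Fin n) (Fin n) ℝ,
    Nc ∈ spR B (cenA A : Set (Module.End ℚ A.H1)) →
    Nd ∈ spR B (der A.NA : Set (Module.End ℚ A.H1)) → N = Nc + Nd →
    Nd ∈ spR B (der 𝔮 : Set (Module.End ℚ A.H1))

/-- **Families of summands.** -/
theorem dj_of (h : Mot w B P) (hr : Det A e) (hN : RelR B AbVar.JJ N)
    (hα : ∀ p ∈ pC B (der A.NA), (∀ i, e i * p.1 = 0) → p.2 * cxm N = cxm N * p.2) :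
    DJ B N := by
  intro 𝔮 hq Nc Nd hNc hNd hNe
  have hdd : der 𝔮 ≤ der A.NA := der_mono' hq
  have hdN : der 𝔮 ≤ A.NA := fun Z hZ => der_NA_le (hdd hZ)
  have hdb : ∀ X ∈ der 𝔮, ∀ Y ∈ der 𝔮, X * Y - Y * X ∈ der 𝔮 := fun X hX Y hY =>
    Submodule.subset_span ⟨X, hq.der_le hX, Y, hq.der_le hY, rfl⟩
  have hle : spR B (der A.NA : Set (Module.End ℚ A.H1)) ≤
      spR B (A.NA : Set (Module.End ℚ A.H1)) := spR_mono der_NA_le
  have hnm : nF B e ≤ spR B (der A.NA : Set (Module.End ℚ A.H1)) := by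
    rintro _ ⟨p, hp, -, rfl⟩
    exact (pC_re hp).1
  refine mem_of_sup (dat h hN hNc hNd hNe) (spR_mono hdd) (spR_br hdb) hnm ?_ ?_ ?_
  · rintro x hx z ⟨p, hp, h1, rfl⟩
    induction hx using Submodule.span_induction with
    | mem x hx =>
      obtain ⟨X, hX, M, hM, rfl⟩ := hx
      refine ⟨_, pC_br h hX hM hp, fun i => ?_, ?_⟩
      · change e i * (p.1 * X.baseChange ℂ - X.baseChange ℂ * p.1) = 0
        rw [mul_sub, ← mul_assoc, h1 i, zero_mul, ← mul_assoc, hr.comm i _ (bc_mem (der_NA_le hX)),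
          mul_assoc, h1 i, mul_zero, sub_zero]
      · change _ = reM (cq M * p.2 - p.2 * cq M)
        rw [reM_sub, ← cxm_rq, reM_mul, reM_mul', RLie.br_apply]
    | zero => rw [LinearMap.map_zero₂]; exact Submodule.zero_mem _
    | add a b _ _ ha hb => rw [LinearMap.map_add₂]; exact Submodule.add_mem _ ha hb
    | smul c a _ ha => rw [LinearMap.map_smul₂]; exact Submodule.smul_mem _ _ ha
  · intro z hz
    have h2 : RLie.br N z = 0 := by
      obtain ⟨p, hp, h1, rfl⟩ := hz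
      have h3 := congrArg reM (hα p hp h1)
      rw [reM_mul, reM_mul'] at h3
      rw [RLie.br_apply, h3, sub_self]
    rw [hNe, LinearMap.map_add₂, cenA_br h hNc (hle (hnm hz)), zero_add] at h2
    exact h2
  · rw [spR, Submodule.span_le]
    rintro _ ⟨X, hX, M, hM, rfl⟩
    obtain ⟨y, hy, h1⟩ := hr.der _ hq X hX
    obtain ⟨y', hy'⟩ := exists_pC h hdN hy
    have h2 : ((X.baseChange ℂ : Module.End ℂ (ℂ ⊗[ℚ] A.H1)), cq M) ∈ pC B (der A.NA) :=
      Submodule.subset_span ⟨X, hX, M, hM, rfl⟩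
    have h3 := Submodule.sub_mem _ h2 (pC_mono hdd hy')
    have h4 : rq M = reM y' + (rq M - reM y') := by abel
    change rq M ∈ _
    rw [h4]
    refine Submodule.add_mem_sup (pC_re hy').1 ⟨_, h3, fun i => ?_, ?_⟩
    · change e i * (X.baseChange ℂ - y) = 0
      rw [mul_sub, h1 i, sub_self]
    · change _ = reM (cq M - y')
      rw [reM_sub, reM_cq]

/-- The decomposition of the complex structure. -/
theorem exists_NcNd (h : Mot w B P) (hN : RelR B AbVar.JJ N) :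
    ∃ Nc ∈ spR B (cenA A : Set (Module.End ℚ A.H1)),
      ∃ Nd ∈ spR B (der A.NA : Set (Module.End ℚ A.H1)), N = Nc + Nd := by
  obtain ⟨N', hN', t, X, M, h1, h2⟩ := exists_J h
  have h3 : N = N' := hN.uniq h.li hN'
  subst h3
  have h4 : N ∈ spR B (A.NA : Set (Module.End ℚ A.H1)) := by
    rw [h2]
    exact Submodule.sum_mem _ fun k _ => Submodule.smul_mem _ _ (mem_spR (h1 k).1 (h1 k).2)
  exact exists_dec h h4

/-- **Motives**, if the centre is rigid. -/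
theorem main_cen (h : Mot w B P) (hW : WRel w B Wt) (hH : PtM P H) (hrig : N208.CT.Rigid A)
    (hD : DJ B N) (hN : RelR B AbVar.JJ N) {z : ℂ} (hz : z ≠ 0) :
    NormedSpace.exp (KK Wt N z) ∈ H ∧ HRel w B z (NormedSpace.exp (KK Wt N z)) := by
  obtain ⟨Nc, hNc, Nd, hNd, hNe⟩ := exists_NcNd h hN
  have h5 : Nd ∈ spR B (der (qM B Wt H) : Set (Module.End ℚ A.H1)) :=
    hD _ (qM_full h hW hH) Nc Nd hNc hNd hNe
  refine ⟨exp_mem hH.grp fun d => ?_, hrel_exp hW hN hz⟩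
  have h6 : cxm N = cxm Nc + cxm Nd := by
    rw [hNe]
    ext i j
    simp [cxm]
  unfold KK
  rw [h6]
  exact ((N208.CT.Wt_mem' h hW hH d).smul _).add
    (((N208.CT.stab_cen h hW hH hrig hNc d).add (stab_spR h hW h5 d)).smul _)

end Gen

section Fac

open Pool.Agent.N208.OU Pool.Agent.N208.AD Pool.Agent.R917.DT

variable {g g' : ℕ} {A : AbVar g} {C : AbVar g'} {f : A.H1 →ₗ[ℚ] C.H1} {p : C.H1 →ₗ[ℚ] A.H1}
  {𝔮 : Submodule ℚ (Module.End ℚ C.H1)}

/-- The components of the complex structure, without a condition on the centre. -/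
theorem ZZ_J' (h : Fac A C f p) (hq : C.Full 𝔮)
    (hD : ∀ N, RelR (hB p) (AbVar.JJ : (Fin g' → ℂ) →ₗ[ℝ] (Fin g' → ℂ)) N → DJ (hB p) N)
    (r : ℝ →ₗ[ℚ] ℚ) : A.cmpE r AbVar.JJ ∈ ZZ f p 𝔮 := by
  obtain ⟨N, hN, -⟩ := exists_J (mot h)
  obtain ⟨Nc, hNc, Nd, hNd, hNe⟩ := exists_NcNd (mot h) hN
  have h5 := hD N hN 𝔮 hq Nc Nd hNc hNd hNe
  rw [N208.CT.cenA_eq] at hNc
  obtain ⟨Yc, hYc, hYc'⟩ := exists_NR h (𝔥 := ZZ f p 𝔮) (𝔮 := C.CN)
    (fun X hX => Submodule.mem_sup_left (Submodule.mem_map_of_mem hX)) hNc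
  obtain ⟨Yd, hYd, hYd'⟩ := exists_NR h (𝔥 := ZZ f p 𝔮) (𝔮 := der 𝔮)
    (fun X hX => Submodule.mem_sup_right (Submodule.mem_map_of_mem hX)) h5
  have h6 := hYc'.add hYd'
  rw [← hNe] at h6
  have h7 := cmpE_mem (Submodule.add_mem _ hYc hYd) r
  rwa [h6.uniq (NR_JJ h hN)] at h7

/-- The centre acts trivially on the factor. -/
def NoCentreF (f : A.H1 →ₗ[ℚ] C.H1) (p : C.H1 →ₗ[ℚ] A.H1) : Prop := ∀ X ∈ C.CN, rs f p X = 0

/-- **Factors**, if the centre is rigid or acts trivially. -/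
theorem detJ_of' (h : Fac A C f p) (hc : N208.CT.Rigid C ∨ NoCentreF f p)
    (hD : ∀ N, RelR (hB p) (AbVar.JJ : (Fin g' → ℂ) →ₗ[ℝ] (Fin g' → ℂ)) N → DJ (hB p) N) :
    DetJ A := by
  intro 𝔥 hle hbr h0 hRC r
  have hF := h.qq_full hbr h0
  obtain ⟨N, hN, -⟩ := exists_J (mot h)
  obtain ⟨Nc, hNc, Nd, hNd, hNe⟩ := exists_NcNd (mot h) hN
  have h5 := hD N hN _ hF Nc Nd hNc hNd hNe
  obtain ⟨Yc, hYc, hYc'⟩ : ∃ Y ∈ spE A (𝔥 : Set (Module.End ℚ A.H1)), NR A Y Nc := by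
    rw [N208.CT.cenA_eq] at hNc
    refine exists_NR h (𝔥 := 𝔥) (𝔮 := C.CN) (fun X hX => ?_) hNc
    rcases hc with hc | hc
    · exact (CN_le hF (h.qq_RC hRC) hc hX).2
    · rw [hc X hX]
      exact 𝔥.zero_mem
  obtain ⟨Yd, hYd, hYd'⟩ := exists_NR h (𝔥 := 𝔥) (𝔮 := der (Fac.qq f p 𝔥))
    (fun X hX => (hF.der_le hX).2) h5
  have h6 := hYc'.add hYd'
  rw [← hNe] at h6
  have h2 := cmpE_mem (Submodule.add_mem _ hYc hYd) r
  rwa [h6.uniq (NR_JJ h hN)] at h2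

end Fac

end Pool.Agent.U400.PM
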