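import Pool.Agent.N208.OU.Defs

set_option autoImplicit false

/-!
# 1-motives over abelian varieties whose Mumford-Tate domain is a polydisc: definitions

The definitions of 1-motives, their periods and Mumford-Tate groups are those of
`Pool/Agent/N208/OU/Defs.lean`; planes are defined as in
`Pool/Agent/Results/MP_caab05_ag/PolydiscMotives.lean`.
-/

open Module Matrix Pool.Agent.Y102 Pool.Agent.W516.DR Pool.Agent.H204R3.GP Pool.Agent.N208.OneM

noncomputable section

namespace Pool.Agent.U400.PM.One

variable {g : ℕ} (A : AbVar g)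

/-! ### Planes -/

/-- The matrix of the action of the endomorphism `X` of `H_1(A, ℚ)` on the direct summand of
`H_1(A, ℂ)` with the inclusion `P` and the projection `Q`. -/
def onPlane (P : Matrix (Fin (2 * g)) (Fin 2) ℂ) (Q : Matrix (Fin 2) (Fin (2 * g)) ℂ)
    (X : EndQ A) : Matrix (Fin 2) (Fin 2) ℂ := Q * toC A X * P

/-- **A plane**: a direct summand of dimension two of the `𝔤`-module `H_1(A, ℂ)` which is a simple
module; `P` is the inclusion and `Q` is the projection, so the projector `P * Q` commutes with `𝔤`. -/
structure IsPlane (P : Matrix (Fin (2 * g)) (Fin 2) ℂ) (Q : Matrix (Fin 2) (Fin (2 * g)) ℂ) :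
    Prop where
  /-- `Q` is a projection to the summand -/
  proj : Q * P = 1
  /-- the image of `P * Q` and its complement are stable under `𝔤` -/
  stable : ∀ X, InLie A X → P * Q * toC A X = toC A X * (P * Q)
  /-- there is no stable line -/
  simple : ∀ v : Fin 2 → ℂ, v ≠ 0 → ∃ X, InLie A X ∧ ∀ c : ℂ, onPlane A P Q X *ᵥ v ≠ c • v

section pairs

variable {k : ℕ} (P : Fin k → Matrix (Fin (2 * g)) (Fin 2) ℂ)
  (Q : Fin k → Matrix (Fin 2) (Fin (2 * g)) ℂ)

/-- Two planes have the same colour if `[𝔤, 𝔤]` acts on them by equivalent representations. -/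
def SameColour (i j : Fin k) : Prop :=
  ∃ Z : Matrix (Fin 2) (Fin 2) ℂ, Z.det ≠ 0 ∧ ∀ X ∈ derivedLie A,
    Z * onPlane A (P i) (Q i) X = onPlane A (P j) (Q j) X * Z

/-- Two planes are linked if there are two planes of the same colours on which all the elements of `𝔤`
have equal traces. -/
def Linked (i j : Fin k) : Prop :=
  ∃ i' j', SameColour A P Q i i' ∧ SameColour A P Q j j' ∧
    ∀ X, InLie A X → (onPlane A (P i') (Q i') X).trace = (onPlane A (P j') (Q j') X).trace

/-- The plane `i` is separated from the plane `j` if for some automorphism `s` of the field `ℂ` the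
conjugate with `s` of the `[𝔤, 𝔤]`-module `i` belongs to a real form `sl(2, ℝ)` of `sl(2)`, and the
conjugate of the module `j` belongs to the compact real form `su(2)`: the conjugates of the traces of
the squares are real numbers, for `i` sometimes positive, and for `j` never. -/
def Separated (i j : Fin k) : Prop :=
  ∃ s : ℂ ≃+* ℂ,
    (∀ X ∈ derivedLie A, ∃ ρ : ℝ, s ((onPlane A (P i) (Q i) X * onPlane A (P i) (Q i) X).trace) = ρ) ∧
    (∃ X ∈ derivedLie A, ∃ ρ : ℝ, 0 < ρ ∧
      s ((onPlane A (P i) (Q i) X * onPlane A (P i) (Q i) X).trace) = ρ) ∧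
    ∀ X ∈ derivedLie A, ∃ ρ : ℝ, ρ ≤ 0 ∧
      s ((onPlane A (P j) (Q j) X * onPlane A (P j) (Q j) X).trace) = ρ

/-- **A family of planes** in `H_1(A, ℂ)`: every two of the planes have the same colour, or are linked,
or one of them is separated from the other. -/
structure PlanarFamily : Prop where
  /-- simple direct summands of dimension two -/
  plane : ∀ i, IsPlane A (P i) (Q i)
  /-- the condition on the pairs of planes -/
  pairs : ∀ i j, SameColour A P Q i j ∨ Linked A P Q i j ∨ Separated A P Q i j ∨
    Separated A P Q j i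

end pairs

/-! ### The conditions on the factor -/

/-- The matrix of the multiplication with `i` on `H_1(A, ℝ) = ℂ ^ g`, for the basis of the lattice. -/
def complexStructure : Matrix (Fin (2 * g)) (Fin (2 * g)) ℂ :=
  Matrix.of fun i j => ((A.lam.repr (Complex.I • A.lam j) i : ℝ) : ℂ)

/-- The Mumford-Tate domain of the factor `A` of `C` is given by the images of the projectors `E i`: if
a complex combination `∑ c_j X_j` of elements `X_j` of the derived algebra `[𝔤, 𝔤]` of the Lie algebra
of the Hodge group of `C` is zero on the images of the `E i`, then its restriction to `H_1(A, ℂ)`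
commutes with the complex structure. -/
def DomainOf {g' : ℕ} (C : AbVar g') (f : A.H1 →ₗ[ℚ] C.H1) (p : C.H1 →ₗ[ℚ] A.H1) {k : ℕ}
    (E : Fin k → Matrix (Fin (2 * g')) (Fin (2 * g')) ℂ) : Prop :=
  ∀ (m : ℕ) (c : Fin m → ℂ) (X : Fin m → EndQ C), (∀ j, X j ∈ derivedLie C) →
    (∀ i, E i * ∑ j, c j • toC C (X j) = 0) →
      (∑ j, c j • toC A (restr A C f p (X j))) * complexStructure A =
        complexStructure A * ∑ j, c j • toC A (restr A C f p (X j))

/-- The centre of the Lie algebra of the Hodge group of `C` acts trivially on the factor `A`. -/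
def TrivialCentre {g' : ℕ} (C : AbVar g') (f : A.H1 →ₗ[ℚ] C.H1) (p : C.H1 →ₗ[ℚ] A.H1) : Prop :=
  ∀ X, InCentre C X → restr A C f p X = 0

end Pool.Agent.U400.PM.One
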