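import Pool.Agent.U400.PM.OneDefs
import Pool.Agent.U400.PM.Gen

set_option autoImplicit false

/-!
# 1-motives over abelian varieties whose Mumford-Tate domain is a polydisc: proof
-/

open Module Matrix TensorProduct Pool.Agent.Y102 Pool.Agent.R917.OM Pool.Agent.R917.BX
  Pool.Agent.W516.DR Pool.Agent.H204R3.GP Pool.Agent.N208.UR Pool.Agent.N208.OneM

noncomputable section

namespace Pool.Agent.U400.PM.One

section Alg

variable {g g' : ℕ} {A : AbVar g} {C : AbVar g'} {f : A.H1 →ₗ[ℚ] C.H1} {p : C.H1 →ₗ[ℚ] A.H1}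

/-- The matrix of the action on the factor. -/
theorem rel_toC (h : Pool.Agent.R917.DT.Fac A C f p) {X : Module.End ℚ C.H1}
    {M : Matrix (Fin (2 * g)) (Fin (2 * g)) ℚ} (hM : N208.AM.Rel (N208.OU.hB p) X M) :
    M.map (fun q => (q : ℂ)) = (toC A (restr A C f p X))ᵀ := by
  have h1 := N208.OU.NR_rs h hM
  ext j a
  have h2 := h1 (A.lam j) a
  have h3 : ∑ b, (N208.AM.rq M) b a * A.lam.repr (A.lam j) b = (N208.AM.rq M) j a := by
    rw [Finset.sum_eq_single j]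
    · rw [A.lam.repr_self, Finsupp.single_eq_same, mul_one]
    · intro b _ hb
      rw [A.lam.repr_self, Finsupp.single_eq_of_ne hb, mul_zero]
    · intro h0
      exact absurd (Finset.mem_univ j) h0
  rw [h3] at h2
  have h4 : A.lam j = A.per (A.bas j) := (A.per_bas j).symm
  rw [h4, A.ext_apply, A.repr_per] at h2
  have hb : A.bas j = Pi.single j 1 := by
    unfold AbVar.bas
    rw [Pi.basisFun_apply]
  rw [hb] at h2
  have h5 : ((Pool.Agent.R917.DT.rs f p X (Pi.single j 1) a : ℚ) : ℝ) = ((M j a : ℚ) : ℝ) := h2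
  have h6 : (Pool.Agent.R917.DT.rs f p X (Pi.single j 1) a : ℚ) = M j a := by exact_mod_cast h5
  rw [Matrix.map_apply, Matrix.transpose_apply, ← h6]
  rfl

theorem rel_J (h : Pool.Agent.R917.DT.Fac A C f p) {N : Matrix (Fin (2 * g)) (Fin (2 * g)) ℝ}
    (hN : N208.AM.RelR (N208.OU.hB p) (AbVar.JJ : (Fin g' → ℂ) →ₗ[ℝ] (Fin g' → ℂ)) N) :
    N208.AM.cxm N = (complexStructure A)ᵀ := by
  have h1 := N208.OU.NR_JJ h hN
  ext j a
  have h2 := h1 (A.lam j) a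
  have h3 : ∑ b, N b a * A.lam.repr (A.lam j) b = N j a := by
    rw [Finset.sum_eq_single j]
    · rw [A.lam.repr_self, Finsupp.single_eq_same, mul_one]
    · intro b _ hb
      rw [A.lam.repr_self, Finsupp.single_eq_of_ne hb, mul_zero]
    · intro h0
      exact absurd (Finset.mem_univ j) h0
  rw [h3, AbVar.JJ_apply] at h2
  change ((N j a : ℝ) : ℂ) = _
  rw [← h2]
  rfl

/-- **The derived part of the complex structure is in all full subalgebras.** -/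
theorem dj (h : Pool.Agent.R917.DT.Fac A C f p) {k : ℕ}
    {P : Fin k → Matrix (Fin (2 * g')) (Fin 2) ℂ} {Q : Fin k → Matrix (Fin 2) (Fin (2 * g')) ℂ}
    (hA : PlanarFamily C P Q) (hD : DomainOf A C f p fun i => P i * Q i)
    (N : Matrix (Fin (2 * g)) (Fin (2 * g)) ℝ)
    (hN : N208.AM.RelR (N208.OU.hB p) (AbVar.JJ : (Fin g' → ℂ) →ₗ[ℝ] (Fin g' → ℂ)) N) :
    DJ (N208.OU.hB p) N := by
  have hdet := U400.PD.det_of (A := C) (P := P) (Q := Q)
    (fun i => ⟨(hA.plane i).proj, (hA.plane i).stable, (hA.plane i).simple⟩)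
    (fun i j => hA.pairs i j)
  refine dj_of (N208.OU.mot h) hdet hN (U400.PD.alpha_of fun q hq h0 => ?_)
  obtain ⟨m, c, X, hX⟩ := Submodule.mem_span_set'.1 hq
  choose Y hY M hM hYe using fun j => (X j).2
  have h1 : q.1 = ∑ j, c j • toC C (Y j) := by
    rw [← hX, Prod.fst_sum]
    refine Finset.sum_congr rfl fun j _ => ?_
    rw [hYe j]
    rfl
  have h2 : q.2 = (∑ j, c j • toC A (restr A C f p (Y j)))ᵀ := by
    rw [← hX, Prod.snd_sum, Matrix.transpose_sum]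
    refine Finset.sum_congr rfl fun j _ => ?_
    rw [hYe j, Matrix.transpose_smul, ← rel_toC h (hM j)]
    rfl
  have h3 := hD m c Y (fun j => by
    refine (Submodule.span_mono ?_) (hY j)
    rintro _ ⟨X, hX, Y, hY, rfl⟩
    exact ⟨X, hX, Y, hY, rfl⟩) (fun i => by
    rw [← h1]
    exact h0 i)
  rw [h2, rel_J h hN, ← Matrix.transpose_mul, ← Matrix.transpose_mul, h3]

end Alg

section Final

variable {g n s : ℕ} {A : AbVarG g} {u : Fin n → Fin g → ℂ} {v : Fin s → Fin g → ℂ}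
  {ℓ : Fin n → Fin s → ℂ} {G : Subgroup (GL (Betti g n s) ℂ)}

variable {g' : ℕ} {C : AbVar g'} {f : A.toAbVar.H1 →ₗ[ℚ] C.H1} {p : C.H1 →ₗ[ℚ] A.toAbVar.H1}

theorem three (hM : IsOneMotive A u v ℓ) (hG : IsAlgebraicSubgroup G)
    (hP : ContainsPeriods A u v ℓ G) (hF : IsFactor A.toAbVar C f p)
    (hD : ∀ N, N208.AM.RelR (N208.OU.hB p) (AbVar.JJ : (Fin g' → ℂ) →ₗ[ℝ] (Fin g' → ℂ)) N →
      DJ (N208.OU.hB p) N)
    (hR : N208.CT.Rigid C ∨ NoCentreF f p) : mumfordTate A u v ℓ ≤ G := by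
  obtain ⟨T, hT, q, hq, hqT⟩ := hP
  rw [periodMatrix_eq] at hqT
  have hpt := ptM_of hG hT hq hqT
  obtain ⟨K₁, hK₁, hrat⟩ := exists_rat_mult A (pt (dat A u v ℓ)) (by
    rintro (i | l)
    · exact Or.inl (hM.point i)
    · exact Or.inl (hM.dual l))
  have hdet := detJ_of' (hfac hF) hR hD
  obtain ⟨h1, h2⟩ := Pool.Agent.R917.DT.hodge_stab6 hpt
    ⟨hM.point, hM.neg, hM.sub, hM.log⟩ hrat hdet
  refine sInf_le ⟨hG, fun z hz => ?_⟩
  obtain ⟨x, hx, hxe⟩ := Pool.Agent.R917.exp_mem hpt.grp fun k =>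
    ((h2 k).smul ((Complex.log z).re : ℂ)).add ((h1 k).smul ((Complex.log z).im : ℂ))
  exact ⟨x, hx, deligne_exp A hz hxe⟩

theorem two (hM : IsOneMotive A u v ℓ) (hG : IsAlgebraicSubgroup G)
    (hP : ContainsPeriods A u v ℓ G) (hF : IsFactor A.toAbVar C f p)
    (hD : ∀ N, N208.AM.RelR (N208.OU.hB p) (AbVar.JJ : (Fin g' → ℂ) →ₗ[ℝ] (Fin g' → ℂ)) N →
      DJ (N208.OU.hB p) N)
    {Z : Matrix (Betti g n s) (Betti g n s) ℚ}
    (hZ : Z ∈ derived (mtLie A u v ℓ)) (t : ℂ) :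
    IsIn G (NormedSpace.exp (t • cplx Z)) := by
  obtain ⟨T, hT, q, hq, hqT⟩ := hP
  rw [periodMatrix_eq] at hqT
  have hpt := ptM_of hG hT hq hqT
  obtain ⟨K₁, hK₁, hrat⟩ := exists_rat_mult A (pt (dat A u v ℓ)) (by
    rintro (i | l)
    · exact Or.inl (hM.point i)
    · exact Or.inl (hM.dual l))
  have hLg := gg_Lg hpt
  have hfc := hfac hF
  obtain ⟨𝔮, h𝔮⟩ : ∃ 𝔮, 𝔮 = Pool.Agent.R917.DT.Fac.qq f p (aa (gg A.toAbVar n s
    {M | ∃ x ∈ G, (x : Matrix (Betti g n s) (Betti g n s) ℂ) = M})) := ⟨_, rfl⟩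
  have hfull : C.Full 𝔮 := by
    rw [h𝔮]
    exact hfc.qq_full (fun X hX Y hY => hLg.full.br X hX Y hY) (fun D lam => ⟨_, hLg.per D lam, rfl⟩)
  have hJ := ZZ_J' hfc hfull hD
  have hbr : ∀ x ∈ N208.OU.ZZ f p 𝔮, ∀ y ∈ N208.OU.ZZ f p 𝔮,
      x * y - y * x ∈ (Pool.Agent.Y102.der 𝔮).map (Pool.Agent.R917.DT.rs f p) :=
    fun x hx y hy => N208.OU.ZZ_br hfc hfull hx hy
  have hle : (Pool.Agent.Y102.der 𝔮).map (Pool.Agent.R917.DT.rs f p) ≤ N208.OU.ZZ f p 𝔮 := le_sup_right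
  have hle' : (Pool.Agent.Y102.der 𝔮).map (Pool.Agent.R917.DT.rs f p) ≤ aa (gg A.toAbVar n s
      {M | ∃ x ∈ G, (x : Matrix (Betti g n s) (Betti g n s) ℂ) = M}) := by
    rintro _ ⟨X, hX, rfl⟩
    have h1 := hfull.der_le hX
    rw [h𝔮] at h1
    exact h1.2
  have hNA := N208.OU.ZZ_NA hfc hfull
  -- the Lie algebra of the Mumford-Tate group is in the normalizer
  have h1 : mtLie A u v ℓ ≤ N208.OU.LL A n s
      {M | ∃ x ∈ G, (x : Matrix (Betti g n s) (Betti g n s) ℂ) = M} (N208.OU.ZZ f p 𝔮) := by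
    refine sInf_le ⟨fun X hX Y hY => N208.OU.LL_brr hNA hX hY fun x hx y hy =>
      hle (hbr x hx y hy), fun w => ⟨_, ?_, lie_deligne A w⟩⟩
    have hc := fun lam => N208.OU.exists_LL hpt ⟨hM.point, hM.neg, hM.sub, hM.log⟩ hrat hJ lam
    refine Submodule.add_mem _ (Submodule.smul_mem _ _ ?_) (Submodule.smul_mem _ _ ?_)
    · refine N208.OU.mem_span_of_comp fun lam => ?_
      rw [N208.OU.comp_tW]
      exact (hc lam).2
    · refine N208.OU.mem_span_of_comp fun lam => ?_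
      rw [N208.OU.comp_tJ]
      exact (hc lam).1
  obtain ⟨W, hW, hW1, hW2⟩ := Pool.Agent.R917.DT.weight hpt
  have h2 : Z ∈ N208.OU.gQ A n s
      {M | ∃ x ∈ G, (x : Matrix (Betti g n s) (Betti g n s) ℂ) = M} := by
    unfold derived at hZ
    refine (Submodule.span_le.2 ?_) hZ
    rintro _ ⟨X, hX, Y, hY, rfl⟩
    exact N208.OU.LL_gQ hLg hW hW1 hW2 hle' (N208.OU.LL_brr hNA (h1 hX) (h1 hY) hbr)
  obtain ⟨L, hL, rfl⟩ := h2
  exact Pool.Agent.R917.exp_mem hpt.grp fun k => (hL.2 k).smul t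

/-- **Main theorem.** -/
theorem main (hM : IsOneMotive A u v ℓ) (hG : IsAlgebraicSubgroup G)
    (hP : ContainsPeriods A u v ℓ G) (g' : ℕ) (C : AbVar g') (f : A.toAbVar.H1 →ₗ[ℚ] C.H1)
    (p : C.H1 →ₗ[ℚ] A.toAbVar.H1) (hF : IsFactor A.toAbVar C f p) (k : ℕ)
    (P : Fin k → Matrix (Fin (2 * g')) (Fin 2) ℂ) (Q : Fin k → Matrix (Fin 2) (Fin (2 * g')) ℂ)
    (hA : PlanarFamily C P Q) (hD : DomainOf A.toAbVar C f p fun i => P i * Q i) :
    (∀ Z ∈ derived (mtLie A u v ℓ), ∀ t : ℂ, IsIn G (NormedSpace.exp (t • cplx Z))) ∧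
    (RigidCentre C ∨ TrivialCentre A.toAbVar C f p → mumfordTate A u v ℓ ≤ G) := by
  have hd := dj (hfac hF) hA hD
  refine ⟨fun Z hZ t => two hM hG hP hF hd hZ t, fun hc => three hM hG hP hF hd ?_⟩
  rcases hc with hc | hc
  · exact Or.inl (hc.toRigid C)
  · exact Or.inr fun X hX => hc X ⟨hX.1, fun Y hY => hX.2 Y hY⟩

end Final

end Pool.Agent.U400.PM.One
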